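import Mathlib

/-! Kolchin's theorem: a monoid of unipotent endomorphisms of a nonzero finite-dimensional vector
space over an algebraically closed field has a nonzero fixed vector. -/

set_option autoImplicit false

namespace Pool.Agent.Helper40.TG

open Module

/-- the trace of a unipotent endomorphism is the dimension -/
theorem trace_unipotent {L V : Type*} [Field L] [AddCommGroup V] [Module L V]
    [FiniteDimensional L V] (g : Module.End L V) (h : IsNilpotent (g - 1)) :
    LinearMap.trace L V g = (finrank L V : L) := by
  have h1 : LinearMap.trace L V (g - 1) = 0 := (LinearMap.isNilpotent_trace_of_isNilpotent h).eq_zero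
  rw [map_sub, LinearMap.trace_one, sub_eq_zero] at h1
  exact h1

/-- an irreducible monoid of unipotent endomorphisms is trivial -/
theorem trivial_of_irreducible {G L V : Type*} [Monoid G] [Field L] [IsAlgClosed L]
    [AddCommGroup V] [Module L V] [FiniteDimensional L V] [Nontrivial V]
    (ρ : G →* Module.End L V) (hρ : ∀ g, IsNilpotent (ρ g - 1))
    (h1 : ∀ W : Submodule L V, (∀ g, ∀ w ∈ W, ρ g w ∈ W) → W = ⊥ ∨ W = ⊤) (g : G) : ρ g = 1 := by
  classical
  set A := Algebra.adjoin L (Set.range ρ) with hA
  have hmem : ∀ g, ρ g ∈ A := fun g => Algebra.subset_adjoin ⟨g, rfl⟩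
  have hs : IsSimpleModule A V := by
    rw [isSimpleModule_iff]
    refine { exists_pair_ne := ⟨⊥, ⊤, bot_ne_top⟩, eq_bot_or_eq_top := fun U => ?_ }
    rcases h1 (U.restrictScalars L) (fun g w hw => U.smul_mem (⟨ρ g, hmem g⟩ : A) hw) with h | h
    · exact Or.inl ((Submodule.restrictScalars_eq_bot_iff L A V).mp h)
    · exact Or.inr ((Submodule.restrictScalars_eq_top_iff L A V).mp h)
  have hc : ∀ c : Module.End A V, ∃ a : L, ∀ v, c v = a • v := by
    intro c
    obtain ⟨a, ha⟩ := Module.End.exists_eigenvalue (K := L) (V := V) (c.restrictScalars L)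
    refine ⟨a, ?_⟩
    have h2 := h1 (Module.End.eigenspace (c.restrictScalars L) a) (fun g w hw => by
      rw [Module.End.mem_eigenspace_iff] at hw ⊢
      have h3 : c (ρ g w) = ρ g (c w) := c.map_smul (⟨ρ g, hmem g⟩ : A) w
      have h4 : c w = a • w := hw
      change c (ρ g w) = a • ρ g w
      rw [h3, h4, map_smul])
    rcases h2 with h2 | h2
    · exact absurd h2 ha
    · intro v
      have h3 : v ∈ Module.End.eigenspace (c.restrictScalars L) a := by
        rw [h2]
        exact Submodule.mem_top
      exact Module.End.mem_eigenspace_iff.1 h3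
  have hall : ∀ f : Module.End L V, f ∈ A := by
    intro f
    let f' : Module.End (Module.End A V) V :=
      { toFun := f
        map_add' := f.map_add
        map_smul' := by
          intro c v
          obtain ⟨a, ha⟩ := hc c
          change f (c v) = c (f v)
          rw [ha, ha, map_smul] }
    let b := finBasis L V
    obtain ⟨r, hr⟩ := jacobson_density (R := A) (M := V) f' (Finset.univ.image b)
    have e : f = (r : Module.End L V) := by
      refine b.ext fun i => ?_
      exact hr _ (Finset.mem_image_of_mem _ (Finset.mem_univ i))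
    rw [e]
    exact r.2
  have htr : ∀ f : Module.End L V, LinearMap.trace L V (f * (ρ g - 1)) = 0 := by
    intro f
    have h2 : f ∈ Submodule.span L (Submonoid.closure (Set.range ρ) : Set (Module.End L V)) := by
      rw [← Algebra.adjoin_eq_span]
      exact hall f
    have h3 : (Submonoid.closure (Set.range ρ) : Set (Module.End L V)) = Set.range ρ := by
      rw [← MonoidHom.coe_mrange, Submonoid.closure_eq]
    rw [h3] at h2
    induction h2 using Submodule.span_induction with
    | mem f hf =>
      obtain ⟨s, rfl⟩ := hf
      rw [mul_sub, mul_one, ← map_mul, map_sub, trace_unipotent _ (hρ _),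
        trace_unipotent _ (hρ _), sub_self]
    | zero => rw [zero_mul, map_zero]
    | add a b _ _ ha hb => rw [add_mul, map_add, ha, hb, add_zero]
    | smul c a _ ha => rw [smul_mul_assoc, map_smul, ha, smul_zero]
  rw [← sub_eq_zero]
  refine LinearMap.ext fun w => ?_
  rw [LinearMap.zero_apply, ← Module.forall_dual_apply_eq_zero_iff L]
  intro φ
  have h2 := htr (φ.smulRight w)
  have h3 : (φ.smulRight w : Module.End L V) * (ρ g - 1) = (φ ∘ₗ (ρ g - 1)).smulRight w := by
    refine LinearMap.ext fun v => ?_
    rfl
  rw [h3, LinearMap.trace_smulRight] at h2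
  exact h2

/-- **Kolchin's theorem.** -/
theorem kolchin {G L : Type*} [Monoid G] [Field L] [IsAlgClosed L] : ∀ (n : ℕ) {V : Type*}
    [AddCommGroup V] [Module L V] [FiniteDimensional L V] [Nontrivial V],
    finrank L V = n → ∀ ρ : G →* Module.End L V, (∀ g, IsNilpotent (ρ g - 1)) →
      ∃ v : V, v ≠ 0 ∧ ∀ g, ρ g v = v := by
  intro n
  induction n using Nat.strong_induction_on with
  | _ n ih =>
    intro V _ _ _ _ hn ρ hρ
    by_cases h1 : ∀ W : Submodule L V, (∀ g, ∀ w ∈ W, ρ g w ∈ W) → W = ⊥ ∨ W = ⊤
    · obtain ⟨v, hv⟩ := exists_ne (0 : V)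
      refine ⟨v, hv, fun g => ?_⟩
      rw [trivial_of_irreducible ρ hρ h1 g]
      rfl
    push Not at h1
    obtain ⟨W, hW, hbot, htop⟩ := h1
    have hlt : finrank L W < n := by
      rw [← hn]
      exact Submodule.finrank_lt htop
    have : Nontrivial W := Submodule.nontrivial_iff_ne_bot.2 hbot
    let ρ' : G →* Module.End L W :=
      { toFun := fun g => (ρ g).restrict (hW g)
        map_one' := by
          refine LinearMap.ext fun w => Subtype.ext ?_
          rw [LinearMap.coe_restrict_apply, map_one]
          rfl
        map_mul' := fun g h => by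
          refine LinearMap.ext fun w => Subtype.ext ?_
          rw [LinearMap.coe_restrict_apply, map_mul]
          rfl }
    have hρ' : ∀ g, IsNilpotent (ρ' g - 1) := by
      intro g
      obtain ⟨k, hk⟩ := hρ g
      refine ⟨k, ?_⟩
      have h2 : ∀ (j : ℕ) (w : W), (((ρ' g - 1) ^ j) w : V) = ((ρ g - 1) ^ j) (w : V) := by
        intro j
        induction j with
        | zero => intro w; rfl
        | succ j ihj =>
          intro w
          rw [pow_succ, pow_succ, Module.End.mul_apply, Module.End.mul_apply, ihj]
          rfl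
      refine LinearMap.ext fun w => Subtype.ext ?_
      rw [h2, hk]
      rfl
    obtain ⟨v, hv, hfix⟩ := ih (finrank L W) hlt rfl ρ' hρ'
    refine ⟨(v : V), fun h => hv (Subtype.ext h), fun g => ?_⟩
    exact congrArg Subtype.val (hfix g)

end Pool.Agent.Helper40.TG
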