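import Pool.Agent.Helper35.TD.Generic
import Pool.Agent.Helper40.TG.Kolchin

/-! Project TD: the subrepresentations which become unipotent after a Tate twist and a restriction
to an open subgroup. -/

set_option autoImplicit false

namespace Pool.Agent.Helper40.TG

open IntermediateField Module Pool.Agent.Helper75.QC Pool.Agent.Helper35.TD

/-- `P` is a subrepresentation of an open subgroup of the Galois group, and all the eigenvalues of
every element of this subgroup on the twist `P(1)` are equal to one -/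
def IsTateSub {F Ω L : Type} [Field F] [Field Ω] [Algebra F Ω] [Field L]
    (T : GaloisTheory F Ω L) {V : Type} [AddCommGroup V] [Module L V]
    (ρ : (Ω ≃ₐ[F] Ω) → Module.End L V) (P : Submodule L V) : Prop :=
  ∃ U : Subgroup (Ω ≃ₐ[F] Ω), IsOpen (U : Set (Ω ≃ₐ[F] Ω)) ∧
    ∀ τ ∈ U, ∀ v ∈ P, ρ τ v ∈ P ∧
      ∃ N : ℕ, ((ρ τ - algebraMap L (Module.End L V) (((T.cyc τ)⁻¹ : Lˣ) : L)) ^ N) v = 0

/-- A subrepresentation of this kind without nonzero Tate classes is zero. -/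
theorem eq_bot {F Ω L : Type} [Field F] [Field Ω] [Algebra F Ω] [Field L] [IsAlgClosed L]
    (T : GaloisTheory F Ω L) {K₀ : Type} [Field K₀] [Algebra Ω K₀]
    (hfin : (⊤ : IntermediateField Ω K₀).FG) (U : Subgroup (Ω ≃ₐ[F] Ω))
    (hU : IsOpen (U : Set (Ω ≃ₐ[F] Ω))) (γ₀ : (Ω ≃ₐ[F] Ω) → (K₀ →+* K₀)) (hγ₀ : IsForm U γ₀)
    (H : NoTate T K₀)
    (Q : Submodule L (T.H 2 K₀)) (hQ : IsTateSub T (fun τ => T.act 2 (γ₀ τ)) Q) : Q = ⊥ := by
  by_contra hne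
  have hnt : Nontrivial Q := Submodule.nontrivial_iff_ne_bot.2 hne
  have hf0 : FiniteDimensional L (T.H 2 K₀) := T.fin 2 K₀ hfin
  obtain ⟨U', hU', hP⟩ := hQ
  have hmul : ∀ σ ∈ U, ∀ τ ∈ U, γ₀ (σ * τ) = (γ₀ σ).comp (γ₀ τ) := by
    intro σ hσ τ hτ
    refine ringHom_ext {a : K₀ | ∀ τ ∈ U, γ₀ τ a = a} hγ₀.2 _ _ (fun a => ?_) fun s hs => ?_
    · rw [hγ₀.1 _ (U.mul_mem hσ hτ), RingHom.comp_apply, hγ₀.1 τ hτ, hγ₀.1 σ hσ]
      rfl
    · rw [hs _ (U.mul_mem hσ hτ), RingHom.comp_apply, hs τ hτ, hs σ hσ]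
  have hone : γ₀ 1 = RingHom.id K₀ := by
    refine ringHom_ext {a : K₀ | ∀ τ ∈ U, γ₀ τ a = a} hγ₀.2 _ _ (fun a => ?_) fun s hs => ?_
    · rw [hγ₀.1 _ U.one_mem]
      rfl
    · rw [hs _ U.one_mem]
      rfl
  have hact1 : T.act 2 (γ₀ 1) = LinearMap.id := by
    rw [hone, show (RingHom.id K₀) = ((AlgHom.id Ω K₀ : K₀ →ₐ[Ω] K₀) : K₀ →+* K₀) from rfl,
      T.act_map, T.map_id]
  let ρ' : (U ⊓ U' : Subgroup (Ω ≃ₐ[F] Ω)) →* Module.End L Q :=
    { toFun := fun τ => (T.cyc τ.1 : L) • (T.act 2 (γ₀ τ.1)).restrict fun t ht => (hP τ.1 τ.2.2 t ht).1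
      map_one' := by
        refine LinearMap.ext fun w => Subtype.ext ?_
        change (T.cyc 1 : L) • T.act 2 (γ₀ 1) w.1 = w.1
        rw [hact1, map_one]
        simp
      map_mul' := fun σ τ => by
        refine LinearMap.ext fun w => Subtype.ext ?_
        change (T.cyc (σ.1 * τ.1) : L) • T.act 2 (γ₀ (σ.1 * τ.1)) w.1 =
          (T.cyc σ.1 : L) • T.act 2 (γ₀ σ.1) ((T.cyc τ.1 : L) • T.act 2 (γ₀ τ.1) w.1)
        rw [hmul σ.1 σ.2.1 τ.1 τ.2.1, T.act_comp 2 (σ.1 : Ω ≃+* Ω) (τ.1 : Ω ≃+* Ω) _ _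
          (hγ₀.1 _ σ.2.1) (hγ₀.1 _ τ.2.1), map_mul, map_smul, smul_smul]
        simp }
  have hρ' : ∀ g, IsNilpotent (ρ' g - 1) := by
    intro τ
    rw [Module.End.isNilpotent_iff_of_finite]
    intro w
    obtain ⟨N, hN⟩ := (hP τ.1 τ.2.2 w.1 w.2).2
    refine ⟨N, Subtype.ext ?_⟩
    have h2 : ∀ (j : ℕ) (w : Q), (((ρ' τ - 1) ^ j) w : T.H 2 K₀) = (T.cyc τ.1 : L) ^ j •
        ((T.act 2 (γ₀ τ.1) - algebraMap L (Module.End L (T.H 2 K₀))
          (((T.cyc τ.1)⁻¹ : Lˣ) : L)) ^ j) (w : T.H 2 K₀) := by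
      intro j
      induction j with
      | zero => intro w; simp
      | succ j ihj =>
        intro w
        have e : ((ρ' τ - 1) w : T.H 2 K₀) = (T.cyc τ.1 : L) • (T.act 2 (γ₀ τ.1) -
            algebraMap L (Module.End L (T.H 2 K₀)) (((T.cyc τ.1)⁻¹ : Lˣ) : L)) w.1 := by
          change (T.cyc τ.1 : L) • T.act 2 (γ₀ τ.1) w.1 - w.1 = (T.cyc τ.1 : L) •
            (T.act 2 (γ₀ τ.1) w.1 - (((T.cyc τ.1)⁻¹ : Lˣ) : L) • w.1)
          rw [smul_sub, smul_smul, Units.mul_inv, one_smul]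
        rw [pow_succ, pow_succ, pow_succ, Module.End.mul_apply, Module.End.mul_apply, ihj, e,
          map_smul, smul_smul]
    rw [h2]
    have h3 : ((T.act 2 (γ₀ τ.1) - algebraMap L (Module.End L (T.H 2 K₀))
          (((T.cyc τ.1)⁻¹ : Lˣ) : L)) ^ N) w.1 = 0 := hN
    rw [h3, smul_zero]
    rfl
  obtain ⟨v, hv, hfix⟩ := kolchin (finrank L Q) rfl ρ' hρ'
  refine hv (Subtype.ext (H (U ⊓ U') (hU.inter hU') γ₀ (hγ₀.mono inf_le_left) v.1
    fun τ hτ => ?_))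
  have h4 : (T.cyc τ : L) • T.act 2 (γ₀ τ) v.1 = v.1 := congrArg Subtype.val (hfix ⟨τ, hτ⟩)
  change T.act 2 (γ₀ τ) v.1 = ((T.cyc τ)⁻¹ : Lˣ) • v.1
  rw [eq_inv_smul_iff]
  exact h4

/-- **The generalized Tate conjecture for divisors** for a surface without Tate classes at the
generic point: a subrepresentation of the second cohomology which becomes unipotent after a twist
and a restriction to an open subgroup is contained in the span of the classes of the curves. -/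
theorem NoTate.gen {F Ω L : Type} [Field F] [Field Ω] [Algebra F Ω] [Field L] [IsAlgClosed L]
    (T : GaloisTheory F Ω L) {K₀ : Type} [Field K₀] [Algebra Ω K₀]
    (hfin : (⊤ : IntermediateField Ω K₀).FG) (H : NoTate T K₀)
    (U : Subgroup (Ω ≃ₐ[F] Ω)) (hU : IsOpen (U : Set (Ω ≃ₐ[F] Ω)))
    (γ₀ : (Ω ≃ₐ[F] Ω) → (K₀ →+* K₀)) (hγ₀ : IsForm U γ₀)
    {V : Type} [AddCommGroup V] [Module L V] (ρ : (Ω ≃ₐ[F] Ω) → Module.End L V)
    (r : V →ₗ[L] T.H 2 K₀) (NS : Submodule L V) (hV : IsH2 T U γ₀ ρ r NS) (P : Submodule L V)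
    (hP : IsTateSub T ρ P) : P ≤ NS := by
  obtain ⟨U', hU', hP'⟩ := hP
  have h1 := eq_bot T hfin U hU γ₀ hγ₀ H (P.map r) ⟨U ⊓ U', hU.inter hU', fun τ hτ t ht => ?_⟩
  · rw [← hV.ker, LinearMap.le_ker_iff_map]
    exact h1
  · obtain ⟨v, hv, rfl⟩ := ht
    obtain ⟨h2, N, hN⟩ := hP' τ hτ.2 v hv
    refine ⟨⟨ρ τ v, h2, hV.comm τ hτ.1 v⟩, N, ?_⟩
    have h3 : ∀ (j : ℕ) (v : V), ((T.act 2 (γ₀ τ) - algebraMap L (Module.End L (T.H 2 K₀))
          (((T.cyc τ)⁻¹ : Lˣ) : L)) ^ j) (r v) = r (((ρ τ - algebraMap L (Module.End L V)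
            (((T.cyc τ)⁻¹ : Lˣ) : L)) ^ j) v) := by
      intro j
      induction j with
      | zero => intro v; rfl
      | succ j ihj =>
        intro v
        rw [pow_succ, pow_succ, Module.End.mul_apply, Module.End.mul_apply, ← ihj]
        congr 1
        rw [LinearMap.sub_apply, LinearMap.sub_apply, map_sub, hV.comm τ hτ.1,
          Module.algebraMap_end_apply, Module.algebraMap_end_apply, map_smul]
    change ((T.act 2 (γ₀ τ) - algebraMap L (Module.End L (T.H 2 K₀))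
          (((T.cyc τ)⁻¹ : Lˣ) : L)) ^ N) (r v) = 0
    rw [h3, hN, map_zero]

end Pool.Agent.Helper40.TG
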